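import Pool.Agent.TH682.KA.Final

set_option autoImplicit false

/-!
# No key agreement and no public-key encryption without errors from an oracle, for parties with
quantum computers and classical communication

Alice and Bob have quantum computers, ask an oracle `h : X → Bool` (for instance a function, given
by its bits) in superposition, and send classical messages, in any number of rounds. Alice has an
input `i` and Bob has an input `j` (initial states `u i` and `v j`). In the end Alice has the value
`fA i k` and Bob has the value `fB j l`, where `k` and `l` are the results of their measurements;
`none` means that the party rejects. Suppose that they never have different values, whatever the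
oracle and the inputs are. Then an eavesdropper, who reads the messages, asks at most `(2 d) ^ 4`
*classical* questions to the oracle, where `d` is the number of the questions of Alice and Bob, and
whenever both parties have a value he finds it with certainty, for every oracle.

Special cases. Key agreement: there are no inputs, the value is the key. Public-key encryption:
Alice generates the keys, sends the public key, Bob encrypts his input `j` (`fB j l = some j`),
Alice decrypts or rejects.

Proof: for fixed messages, the probabilities that Alice and Bob have the value `x` are polynomials
of degree `2 d` in the bits of `h`; they factor (classical communication), so that the polynomials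
of different values have disjoint supports; a family of nonnegative polynomials with disjoint
supports is separated by a decision tree of depth `(2 d) ^ 4` (this uses the lemmas of
`Pool.Agent.H285R2.PolyCompat`).
-/

namespace Pool.Agent.Results.MP_5f4f03_lc.QuantumPartiesNoErrors

open Pool.Agent.TH682.KA

theorem result (X M K K₁ K₂ I J α β : Type) [Fintype M] [Fintype K] [Nonempty K] [Fintype I]
    [Fintype J] [Fintype α] [Fintype β] (P : Prot X M K₁ K₂ α β)
    (fA : I → K₁ → Option K) (fB : J → K₂ → Option K) (u : I → α → ℂ) (v : J → β → ℂ)
    (hc : ∀ h i j, P.prob h (fun _ k l => ∃ x y, fA i k = some x ∧ fB j l = some y ∧ x ≠ y)
      (u i) (v j) = 0) :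
    ∃ eve : List M → DTree X K, (∀ τ, (eve τ).depth ≤ (2 * P.asks) ^ 4) ∧
      ∀ h i j, P.prob h (fun τ k l => ∃ x, fA i k = some x ∧ fB j l = some x ∧
        (eve τ).eval h ≠ x) (u i) (v j) = 0 :=
  attack' P fA fB u v hc

end Pool.Agent.Results.MP_5f4f03_lc.QuantumPartiesNoErrors
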